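import Pool.Agent.Lib.MP_b5021c_nt.IfaceKV

/-! # Row KV_UFX: LEMMA UF with the value at `x` -/

namespace Pool.Agent.B5.KV94

open scoped LaurentPolynomial
open Polynomial Pool.Agent.B5

lemma exists_x (r : ℝ) : ∃ x : ℝ, 0 < x ∧ x⁻¹ - x = r := by
  have h : 0 < r ^ 2 + 4 := by positivity
  have hs : |r| < Real.sqrt (r ^ 2 + 4) := by
    rw [← Real.sqrt_sq_eq_abs]
    exact Real.sqrt_lt_sqrt (sq_nonneg r) (by linarith)
  have hq : Real.sqrt (r ^ 2 + 4) * Real.sqrt (r ^ 2 + 4) = r ^ 2 + 4 :=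
    Real.mul_self_sqrt h.le
  have hx : 0 < (Real.sqrt (r ^ 2 + 4) - r) / 2 := by
    have := le_abs_self r
    linarith
  refine ⟨(Real.sqrt (r ^ 2 + 4) - r) / 2, hx, ?_⟩
  have hi : ((Real.sqrt (r ^ 2 + 4) - r) / 2)⁻¹ = (Real.sqrt (r ^ 2 + 4) + r) / 2 := by
    rw [inv_eq_iff_eq_inv, eq_comm, inv_eq_iff_eq_inv, eq_comm]
    rw [inv_eq_of_mul_eq_one_right]
    nlinarith
  rw [hi]
  ring

theorem ufx_st (hav : UavS) (hw : UfwS) (hf : UffS) (hc : UfcS) : UfxS := by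
  intro P L _ _ _ _ _ phi E S i0 h eta c n0 G N p0 p1 u0 hDD hR hZ hN hV hrk hB he0 he1 hp0 hp1
  by_cases hcu : IsUnit c
  · left
    have key : ∀ (m : ℕ), 1 ≤ m → ∃ q0 q1 : ℤ[X], (∀ j, q0.coeff j = p0.coeff (m * j)) ∧
        (∀ j, q1.coeff j = p1.coeff (m * j)) ∧ q0 = C ((N : ℤ) - 1) + q1 ∧
        ∀ x : ℝ, 0 < x → x⁻¹ - x = N - 1 →
          (aeval x q0 : ℝ) ≤ N + x ∧ (aeval (-x) q0 : ℝ) ≤ N + x := by
      intro m hm
      obtain ⟨K, E', S', h', eta', u0', q0, q1, hU, h0, h1⟩ :=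
        hav P L phi E S i0 h eta c n0 G N p0 p1 u0 m hDD hR hZ hN hV hrk he0 he1 hp0 hp1 hcu hm
      obtain ⟨x, hx0, hx1⟩ := exists_x ((N : ℝ) - 1)
      refine ⟨q0, q1, h0, h1, (hw P K _ E' S' i0 h' eta' N q0 q1 u0' x hU hB hx0 hx1).1, ?_⟩
      intro y hy0 hy1
      exact (hw P K _ E' S' i0 h' eta' N q0 q1 u0' y hU hB hy0 hy1).2
    have hF0 : ∀ (m : ℕ), 1 ≤ m → ∀ G' : ℤ[X], (∀ j, G'.coeff j = (p1 - 1).coeff (m * j)) →
        ∀ x : ℝ, 0 < x → x⁻¹ - x = N - 1 → (aeval x G' : ℝ) ≤ x ∧ (aeval (-x) G' : ℝ) ≤ x := by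
      intro m hm G' hG x hx0 hx1
      obtain ⟨q0, q1, h0, h1, h2, h3⟩ := key m hm
      have hG1 : G' = q1 - 1 := by
        ext j
        rw [hG, coeff_sub, coeff_sub, h1, coeff_one, coeff_one]
        congr 1
        by_cases hj : j = 0
        · simp [hj]
        · have : m * j ≠ 0 := Nat.mul_ne_zero (by omega) hj
          simp [hj, this]
      have hq : q0 = C (N : ℤ) + G' := by
        rw [h2, hG1, map_sub, map_one]
        ring
      obtain ⟨a1, a2⟩ := h3 x hx0 hx1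
      rw [hq] at a1 a2
      simp only [map_add, aeval_C, algebraMap_int_eq, Int.coe_castRingHom, Int.cast_natCast]
        at a1 a2
      exact ⟨by linarith, by linarith⟩
    obtain ⟨q0, q1, h0, h1, h2, -⟩ := key 1 le_rfl
    have e0 : q0 = p0 := by
      ext j
      rw [h0, one_mul]
    have e1 : q1 = p1 := by
      ext j
      rw [h1, one_mul]
    rw [e0, e1] at h2
    refine ⟨p1 - 1, ?_, by ring, ?_, ?_, ?_⟩
    · rw [h2, map_sub, map_one]
      ring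
    · rw [coeff_sub, hp1, coeff_one]
      simp
    · obtain ⟨x, hx0, hx1⟩ := exists_x ((N : ℝ) - 1)
      refine hf N (p1 - 1) x hN hx0 hx1 ?_ ?_
      · rw [coeff_sub, hp1, coeff_one]
        simp
      · intro m G' hm hG
        exact hF0 m hm G' hG x hx0 hx1
    · intro x hx0 hx1
      exact (hF0 1 le_rfl (p1 - 1) (fun j => by rw [one_mul]) x hx0 hx1).1
  · right
    exact hc P L phi E S i0 h eta c n0 G N p0 p1 u0 hDD hR hZ hN hV hrk he0 he1 hp0 hp1 hcu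

end Pool.Agent.B5.KV94
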